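import Mathlib
import Pool.Agent.U514.TG.Final
import Pool.Agent.U514.MM.RandCor

/-!
# From arithmetic circuits to circuits of arbitrary gates
-/

set_option autoImplicit false

open Finset

namespace Pool.Agent.U514.TR

open Pool.Agent.H522R2 Pool.Agent.H522R2.Circuit Pool.Agent.H522R3.TW Pool.Agent.Y631.Tr
open Pool.Agent.Helper770.Crossing
open Pool.Agent.U514.TG (IsPlanar)

/-- Planarity of a graph with an injective homomorphism into a planar graph. -/
theorem planar_of_hom {V W : Type} {G : SimpleGraph V} {H : SimpleGraph W} (φ : V → W)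
    (hφ : Function.Injective φ) (h : ∀ u v, G.Adj u v → H.Adj (φ u) (φ v)) (hH : IsPlanar H) :
    IsPlanar G := by
  obtain ⟨D, hD⟩ := hH
  have hmem : ∀ e ∈ G.edgeSet, Sym2.map φ e ∈ H.edgeSet := by
    intro e
    induction e using Sym2.ind with
    | _ u v =>
      intro he
      rw [Sym2.map_mk]
      exact h u v he
  refine ⟨{ pos := fun v => D.pos (φ v)
            pos_injective := D.pos_injective.comp hφ
            arc := fun e => D.arc (Sym2.map φ e)
            arc_continuousOn := fun e he => D.arc_continuousOn _ (hmem e he)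
            arc_injOn := fun e he => D.arc_injOn _ (hmem e he)
            arc_ends := fun u v huv => by
              have := D.arc_ends (φ u) (φ v) (h u v huv)
              rw [Sym2.map_mk]
              exact this
            arc_avoids := fun e he t ht w => D.arc_avoids _ (hmem e he) t ht (φ w) }, ?_⟩
  rw [Set.eq_empty_iff_forall_notMem]
  rintro ⟨p, z⟩ ⟨e, he, f, hf, hef, hp, hz1, hz2⟩
  have : (s(Sym2.map φ e, Sym2.map φ f), z) ∈ D.crossings :=
    ⟨_, hmem e he, _, hmem f hf, fun h0 => hef (Sym2.map.injective hφ h0), rfl, hz1, hz2⟩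
  rw [hD] at this
  exact this

section conv

variable {F V ι : Type} [Field F] (C : Circuit F V) (τ : V → ι) (x₀ : ι) {s : ℕ}
  (e : Fin s ≃o {k : Fin C.nodes // IsGate C k})

open Classical in
/-- the source of a wire -/
noncomputable def srcOf (u : Fin C.nodes) : ι ⊕ Fin s :=
  if h : IsGate C u then Sum.inr (e.symm ⟨u, h⟩) else
    match C.gate u with
    | .var v => Sum.inl (τ v)
    | _ => Sum.inl x₀

/-- the value of an operand -/
def valOf (u : Fin C.nodes) (t : F) : F :=
  match C.gate u with
  | .const c => c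
  | _ => t

/-- the first operand -/
def opA (k : Fin C.nodes) : Fin C.nodes :=
  match C.gate k with
  | .add i _ => C.up k i
  | .mul i _ => C.up k i
  | _ => k

/-- the second operand -/
def opB (k : Fin C.nodes) : Fin C.nodes :=
  match C.gate k with
  | .add _ j => C.up k j
  | .mul _ j => C.up k j
  | _ => k

/-- the operation -/
def opF (k : Fin C.nodes) (a b : F) : F :=
  match C.gate k with
  | .add _ _ => a + b
  | .mul _ _ => a * b
  | _ => 0

variable {C τ x₀ e}

theorem valOf_gate {u : Fin C.nodes} (h : IsGate C u) (t : F) : valOf C u t = t := by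
  obtain ⟨i, j, h1 | h1⟩ := h
  · unfold valOf
    rw [h1]
  · unfold valOf
    rw [h1]

theorem val_src (x : ι → F) (u : Fin C.nodes) :
    valOf C u (Sum.elim x (fun g => MvPolynomial.eval (x ∘ τ) (C.poly (e g).1))
      (srcOf C τ x₀ e u)) = MvPolynomial.eval (x ∘ τ) (C.poly u) := by
  by_cases h : IsGate C u
  · rw [srcOf, dif_pos h, Sum.elim_inr, OrderIso.apply_symm_apply]
    exact valOf_gate h _
  · rw [srcOf, dif_neg h]
    cases h1 : C.gate u with
    | var v =>
      unfold valOf
      rw [h1, poly, h1]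
      simp
    | const c =>
      unfold valOf
      rw [h1, poly, h1]
      simp
    | add i j => exact absurd ⟨i, j, Or.inl h1⟩ h
    | mul i j => exact absurd ⟨i, j, Or.inr h1⟩ h

theorem opF_eval (y : V → F) (k : Fin C.nodes) (hk : IsGate C k) :
    MvPolynomial.eval y (C.poly k) =
      opF C k (MvPolynomial.eval y (C.poly (opA C k))) (MvPolynomial.eval y (C.poly (opB C k))) := by
  obtain ⟨i, j, h1 | h1⟩ := hk
  · have ea : opA C k = C.up k i := by unfold opA; rw [h1]
    have eb : opB C k = C.up k j := by unfold opB; rw [h1]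
    rw [ea, eb]
    unfold opF
    rw [h1, poly, h1]
    simp
  · have ea : opA C k = C.up k i := by unfold opA; rw [h1]
    have eb : opB C k = C.up k j := by unfold opB; rw [h1]
    rw [ea, eb]
    unfold opF
    rw [h1, poly, h1]
    simp

theorem feeds_opA (k : Fin C.nodes) (hk : IsGate C k) : Feeds C (opA C k) k := by
  obtain ⟨i, j, h1 | h1⟩ := hk
  · exact ⟨i, j, Or.inl h1, Or.inl (by unfold opA; rw [h1])⟩
  · exact ⟨i, j, Or.inr h1, Or.inl (by unfold opA; rw [h1])⟩

theorem feeds_opB (k : Fin C.nodes) (hk : IsGate C k) : Feeds C (opB C k) k := by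
  obtain ⟨i, j, h1 | h1⟩ := hk
  · exact ⟨i, j, Or.inl h1, Or.inr (by unfold opB; rw [h1])⟩
  · exact ⟨i, j, Or.inr h1, Or.inr (by unfold opB; rw [h1])⟩

theorem lt_of_feeds {h k : Fin C.nodes} (hf : Feeds C h k) : h < k := by
  obtain ⟨i, j, -, rfl | rfl⟩ := hf
  · exact i.2
  · exact j.2

theorem srcOf_inr {u : Fin C.nodes} {h : Fin s} (hu : srcOf C τ x₀ e u = Sum.inr h) :
    (e h).1 = u := by
  by_cases hg : IsGate C u
  · rw [srcOf, dif_pos hg] at hu
    have := Sum.inr_injective hu
    rw [← this, OrderIso.apply_symm_apply]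
  · rw [srcOf, dif_neg hg] at hu
    cases h1 : C.gate u with
    | var v => rw [h1] at hu; cases hu
    | const c => rw [h1] at hu; cases hu
    | add i j => rw [h1] at hu; cases hu
    | mul i j => rw [h1] at hu; cases hu

variable (C τ x₀ e)

/-- the converted circuit -/
noncomputable def conv {ω : Type} (o : ω → {k : Fin C.nodes // IsGate C k}) : Net ι ω F where
  size := s
  arity := fun _ => 2
  src := fun g a => srcOf C τ x₀ e (if a = 0 then opA C (e g).1 else opB C (e g).1)
  op := fun g v => opF C (e g).1 (valOf C (opA C (e g).1) (v 0)) (valOf C (opB C (e g).1) (v 1))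
  out := fun w => e.symm (o w)
  acyclic := by
    intro g a h hh
    have h1 := srcOf_inr hh
    have h2 : (e h).1 < (e g).1 := by
      rw [h1]
      split_ifs
      · exact lt_of_feeds (feeds_opA _ (e g).2)
      · exact lt_of_feeds (feeds_opB _ (e g).2)
    exact (e.lt_iff_lt).1 h2

variable {C τ x₀ e}

theorem conv_computes {ω : Type} (o : ω → {k : Fin C.nodes // IsGate C k}) (x : ι → F) :
    (conv C τ x₀ e o).Computes x
      (fun w => MvPolynomial.eval (x ∘ τ) (C.poly (o w).1)) := by
  refine ⟨fun g => MvPolynomial.eval (x ∘ τ) (C.poly (e g).1), fun g => ?_, fun w => ?_⟩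
  · show MvPolynomial.eval (x ∘ τ) (C.poly (e g).1) =
      opF C (e g).1
        (valOf C (opA C (e g).1) (Sum.elim x (fun g => MvPolynomial.eval (x ∘ τ) (C.poly (e g).1))
          (srcOf C τ x₀ e (if (0 : Fin 2) = 0 then opA C (e g).1 else opB C (e g).1))))
        (valOf C (opB C (e g).1) (Sum.elim x (fun g => MvPolynomial.eval (x ∘ τ) (C.poly (e g).1))
          (srcOf C τ x₀ e (if (1 : Fin 2) = 0 then opA C (e g).1 else opB C (e g).1))))
    rw [if_pos rfl, if_neg (by decide), val_src, val_src]
    exact opF_eval _ _ (e g).2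
  · show MvPolynomial.eval (x ∘ τ) (C.poly (e (e.symm (o w))).1) = _
    rw [OrderIso.apply_symm_apply]

theorem conv_planar {ω : Type} (o : ω → {k : Fin C.nodes // IsGate C k})
    (h : IsPlanar (Pool.Agent.U514.MM.gateGraph C)) :
    IsPlanar (Pool.Agent.U514.PD.gateGraph (conv C τ x₀ e o)) := by
  have hj : ∀ u v : Fin s, (conv C τ x₀ e o).Joined u v → Feeds C (e u).1 (e v).1 := by
    rintro u v ⟨a, ha⟩
    have h1 := srcOf_inr (τ := τ) (x₀ := x₀) (e := e) ha
    rw [h1]
    split_ifs
    · exact feeds_opA _ (e v).2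
    · exact feeds_opB _ (e v).2
  refine planar_of_hom (V := Fin s) (fun g => e g) e.injective (fun u v huv => ?_) h
  rw [Pool.Agent.U514.PD.gateGraph, SimpleGraph.fromRel_adj] at huv
  rw [Pool.Agent.U514.MM.gateGraph, SimpleGraph.fromRel_adj]
  exact ⟨fun h0 => huv.1 (e.injective h0), huv.2.imp (hj u v) (hj v u)⟩

end conv

end Pool.Agent.U514.TR
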