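import Mathlib
import Pool.Agent.U514.TR.Conv

/-!
# Random planar circuits for matrix multiplication
-/

set_option autoImplicit false

open Finset

namespace Pool.Agent.U514.TR

open Pool.Agent.H522R2 Pool.Agent.H522R2.Circuit Pool.Agent.H522R3.TW Pool.Agent.Y631.Tr
open Pool.Agent.U514.TG (IsPlanar)
open Pool.Agent.U514.MM (gateGraph size_eq)
open Pool.Agent.W896.MO (mm)
open Pool.Agent.W956.KF (growth)

/-- The lower bound for nets. -/
theorem net_lower (κ π : ℕ) (ε : ℝ) (hε : 0 < ε) (hε1 : ε ≤ 1 / 2) :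
    ∀ᶠ n : ℕ in Filter.atTop, ∀ (F : Type) [Field F] [Fintype F] (R : Type) [Fintype R]
      [Nonempty R] (C : R → Net (Bool × Fin n × Fin n) (Fin n × Fin n) F) (s : ℕ),
      (∀ i, (∀ g, (C i).arity g ≤ κ) ∧ IsPlanar (Pool.Agent.U514.PD.gateGraph (C i)) ∧
        (C i).size ≤ s) →
      Nat.card R * Fintype.card F ^ (2 * n ^ 2) ≤ 2 ^ π *
        Nat.card {u : R × (Bool × Fin n × Fin n → F) // (C u.1).Computes u.2 (mm u.2)} →
      (n : ℝ) ^ (8 / 3 - ε) < s := by
  have hb : (0 : ℝ) < 2 * (3 * ε / 4) := by positivity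
  have hev : ∀ᶠ n : ℕ in Filter.atTop, (10 : ℝ) ≤ (n : ℝ) ^ (2 * (3 * ε / 4)) :=
    ((tendsto_rpow_atTop hb).comp tendsto_natCast_atTop_atTop).eventually_ge_atTop 10
  filter_upwards [Pool.Agent.U514.MM.mm_random_minors κ π ((1 - 2 * (3 * ε / 4)) / 3) (3 * ε / 4)
    (by linarith) (by linarith) (by linarith), hev, Filter.eventually_ge_atTop 1]
    with n h1 h2 hn F _ _ R _ _ C s hC hc
  by_contra hcon
  push Not at hcon
  have hn0 : (0 : ℝ) < n := by exact_mod_cast hn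
  have e1 : ((n : ℝ) ^ 2) ^ (1 + (1 - 2 * (3 * ε / 4)) / 3) = (n : ℝ) ^ (8 / 3 - ε) := by
    rw [← Real.rpow_natCast (n : ℝ) 2, ← Real.rpow_mul hn0.le]
    congr 1
    push_cast
    ring
  have e2 : ((n : ℝ) ^ 2) ^ (1 - 3 * ((1 - 2 * (3 * ε / 4)) / 3) - 3 * ε / 4) =
      (n : ℝ) ^ (2 * (3 * ε / 4)) := by
    rw [← Real.rpow_natCast (n : ℝ) 2, ← Real.rpow_mul hn0.le]
    congr 1
    push_cast
    ring
  obtain ⟨i, hi⟩ := h1 F R C (fun i => ⟨(hC i).1, by
    rw [e1]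
    exact le_trans (by exact_mod_cast (hC i).2.2) hcon⟩) hc
  have h3 := hi (Fin 5) ⊤ (by rw [e2]; simp only [Fintype.card_fin]; push_cast; linarith)
    (by rw [e2, Pool.Agent.U514.TG.k5_edges]; push_cast; exact h2)
  exact Pool.Agent.U2.TG.PLOW.t_PLOW _ _ (hC i).2.1 _ h3

theorem count_of_prob {R X : Type} [Fintype R] [Fintype X] (P : R → X → Prop) {δ : ℝ} {π : ℕ}
    (hπ : 1 ≤ 2 ^ π * δ) (h : ∀ x, δ * (Nat.card R : ℝ) ≤ Nat.card {i // P i x}) :
    Nat.card R * Fintype.card X ≤ 2 ^ π * Nat.card {u : R × X // P u.1 u.2} := by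
  classical
  have e : {u : R × X // P u.1 u.2} ≃ Σ x : X, {i : R // P i x} :=
    { toFun := fun u => ⟨u.1.2, u.1.1, u.2⟩
      invFun := fun s => ⟨(s.2.1, s.1), s.2.2⟩
      left_inv := fun _ => rfl
      right_inv := fun _ => rfl }
  have h1 : Nat.card {u : R × X // P u.1 u.2} = ∑ x, Nat.card {i : R // P i x} := by
    rw [Nat.card_congr e, Nat.card_sigma]
  have h2 : δ * (Nat.card R : ℝ) * Fintype.card X ≤ (Nat.card {u : R × X // P u.1 u.2} : ℝ) := by
    rw [h1]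
    push_cast
    calc δ * (Nat.card R : ℝ) * Fintype.card X = ∑ _x : X, δ * (Nat.card R : ℝ) := by
          rw [Finset.sum_const, Finset.card_univ, nsmul_eq_mul]; ring
      _ ≤ _ := Finset.sum_le_sum fun x _ => h x
  have h3 : ((Nat.card R : ℝ) * Fintype.card X) ≤
      2 ^ π * (Nat.card {u : R × X // P u.1 u.2} : ℝ) := by
    calc ((Nat.card R : ℝ) * Fintype.card X) = 1 * ((Nat.card R : ℝ) * Fintype.card X) := by ring
      _ ≤ (2 ^ π * δ) * ((Nat.card R : ℝ) * Fintype.card X) :=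
          mul_le_mul_of_nonneg_right hπ (by positivity)
      _ = 2 ^ π * (δ * (Nat.card R : ℝ) * Fintype.card X) := by ring
      _ ≤ _ := mul_le_mul_of_nonneg_left h2 (by positivity)
  exact_mod_cast h3

/-- The circuit `C`, with the output gates `out`, computes the product of `A` and `B`. -/
def Multiplies {F : Type} [Field F] {n : ℕ} (C : Circuit F (Vars n))
    (out : Fin n → Fin n → {k : Fin C.nodes // IsGate C k}) (A B : Matrix (Fin n) (Fin n) F) :
    Prop :=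
  ∀ p q, MvPolynomial.eval (Sum.elim (fun u => A u.1 u.2) (fun u => B u.1 u.2))
    (C.poly (out p q).1) = (A * B) p q

/-- Random planar arithmetic circuits of size at most `s`. -/
def RandomCircuits (F : Type) [Field F] (δ : ℝ) (n s : ℕ) : Prop :=
  ∃ (R : Type) (_ : Fintype R) (_ : Nonempty R) (C : R → Circuit F (Vars n))
    (out : ∀ i, Fin n → Fin n → {k : Fin (C i).nodes // IsGate (C i) k}),
    (∀ i, IsPlanar (gateGraph (C i)) ∧ (C i).size ≤ s) ∧
    ∀ A B : Matrix (Fin n) (Fin n) F,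
      δ * (Nat.card R : ℝ) ≤ Nat.card {i : R // Multiplies (C i) (out i) A B}

/-- Random planar circuits of arbitrary gates of fan-in at most `κ`, of size at most `s`. -/
def RandomNets (F : Type) [Field F] (κ : ℕ) (δ : ℝ) (n s : ℕ) : Prop :=
  ∃ (R : Type) (_ : Fintype R) (_ : Nonempty R)
    (C : R → Net (Bool × Fin n × Fin n) (Fin n × Fin n) F),
    (∀ i, (∀ g, (C i).arity g ≤ κ) ∧ IsPlanar (Pool.Agent.U514.PD.gateGraph (C i)) ∧
      (C i).size ≤ s) ∧
    ∀ A B : Matrix (Fin n) (Fin n) F, δ * (Nat.card R : ℝ) ≤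
      Nat.card {i : R // (C i).Computes
        (fun u => if u.1 then B u.2.1 u.2.2 else A u.2.1 u.2.2) (fun o => (A * B) o.1 o.2)}

theorem nets_lower (κ : ℕ) (δ ε : ℝ) (hδ : 0 < δ) (hε : 0 < ε) :
    ∀ᶠ n : ℕ in Filter.atTop, ∀ (F : Type) [Field F] [Finite F] (s : ℕ), RandomNets F κ δ n s →
      (n : ℝ) ^ (8 / 3 - ε) ≤ s := by
  obtain ⟨π, hπ⟩ : ∃ π : ℕ, 1 ≤ 2 ^ π * δ := by
    obtain ⟨π, hπ⟩ := pow_unbounded_of_one_lt (1 / δ) (by norm_num : (1 : ℝ) < 2)
    exact ⟨π, by rw [div_lt_iff₀ hδ] at hπ; exact hπ.le⟩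
  filter_upwards [net_lower κ π (min ε (1 / 2)) (by positivity) (min_le_right _ _),
    Filter.eventually_ge_atTop 1] with n h1 hn F _ _ s h
  classical
  obtain ⟨R, hR, hR', C, h2, h3⟩ := h
  let _ := Fintype.ofFinite F
  have hn1 : (1 : ℝ) ≤ n := by exact_mod_cast hn
  refine le_trans (Real.rpow_le_rpow_of_exponent_le hn1 ?_) (h1 F R C s h2 ?_).le
  · have := min_le_left ε (1 / 2)
    linarith
  · have h4 := count_of_prob (fun (i : R) (x : Bool × Fin n × Fin n → F) =>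
      (C i).Computes x (mm x)) hπ (fun x => by
        have h6 := h3 (Matrix.of fun p q => x (false, p, q)) (Matrix.of fun p q => x (true, p, q))
        have e1 : (fun u : Bool × Fin n × Fin n => if u.1 = true then
            (Matrix.of fun p q => x (true, p, q)) u.2.1 u.2.2
            else (Matrix.of fun p q => x (false, p, q)) u.2.1 u.2.2) = x := by
          funext ⟨b, p, q⟩
          cases b <;> rfl
        have e2 : (fun o : Fin n × Fin n => ((Matrix.of fun p q => x (false, p, q)) *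
            (Matrix.of fun p q => x (true, p, q))) o.1 o.2) = mm x := by
          funext o
          simp [mm, Matrix.mul_apply]
        rw [e1, e2] at h6
        exact h6)
    have h5 : Fintype.card (Bool × Fin n × Fin n → F) = Fintype.card F ^ (2 * n ^ 2) := by
      simp [Fintype.card_pi, sq]
    rw [h5] at h4
    exact h4

/-- The variables of the two kinds of circuits. -/
def tau {n : ℕ} : Vars n → Bool × Fin n × Fin n :=
  Sum.elim (fun p => (false, p)) (fun p => (true, p))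

/-- The numbering of the gates. -/
noncomputable def iso {F V : Type} (C : Circuit F V) :
    Fin C.size ≃o {k : Fin C.nodes // IsGate C k} := by
  classical
  exact Fintype.orderIsoFinOfCardEq _ (by rw [size_eq, Nat.card_eq_fintype_card])

theorem nets_of_circuits {F : Type} [Field F] {δ : ℝ} {n s : ℕ} (hn : 0 < n)
    (h : RandomCircuits F δ n s) : RandomNets F 2 δ n s := by
  classical
  obtain ⟨R, hR, hR', C, out, h1, h2⟩ := h
  refine ⟨R, hR, hR', fun i => conv (C i) tau (false, ⟨0, hn⟩, ⟨0, hn⟩) (iso (C i))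
    (fun o : Fin n × Fin n => out i o.1 o.2), fun i => ⟨fun g => le_rfl, conv_planar _ (h1 i).1, (h1 i).2⟩,
    fun A B => (h2 A B).trans ?_⟩
  have key : ∀ i, Multiplies (C i) (out i) A B →
      (conv (C i) tau (false, ⟨0, hn⟩, ⟨0, hn⟩) (iso (C i))
        (fun o : Fin n × Fin n => out i o.1 o.2)).Computes
        (fun u => if u.1 then B u.2.1 u.2.2 else A u.2.1 u.2.2) (fun o => (A * B) o.1 o.2) := by
    intro i hi
    have h3 := conv_computes (C := C i) (τ := tau) (x₀ := ((false, ⟨0, hn⟩, ⟨0, hn⟩) :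
      Bool × Fin n × Fin n)) (e := iso (C i)) (fun o : Fin n × Fin n => out i o.1 o.2)
      (fun u => if u.1 then B u.2.1 u.2.2 else A u.2.1 u.2.2)
    have e1 : ((fun u : Bool × Fin n × Fin n => if u.1 = true then B u.2.1 u.2.2
        else A u.2.1 u.2.2) ∘ tau) = Sum.elim (fun u => A u.1 u.2) (fun u => B u.1 u.2) := by
      funext u
      rcases u with u | u <;> simp [tau]
    have e2 : (fun w : Fin n × Fin n => MvPolynomial.eval
        ((fun u : Bool × Fin n × Fin n => if u.1 = true then B u.2.1 u.2.2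
        else A u.2.1 u.2.2) ∘ tau) ((C i).poly (out i w.1 w.2).1)) =
        fun o => (A * B) o.1 o.2 := by
      funext w
      rw [e1]
      exact hi w.1 w.2
    rw [e2] at h3
    exact h3
  exact_mod_cast Nat.card_le_card_of_injective (fun i : {i : R // Multiplies (C i) (out i) A B} =>
    (⟨i.1, key i.1 i.2⟩ : {i : R // (conv (C i) tau (false, ⟨0, hn⟩, ⟨0, hn⟩) (iso (C i))
      (fun o : Fin n × Fin n => out i o.1 o.2)).Computes
        (fun u => if u.1 then B u.2.1 u.2.2 else A u.2.1 u.2.2) (fun o => (A * B) o.1 o.2)}))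
    (fun a b hab => Subtype.ext (by simpa using hab))

theorem exists_of_infinite {F : Type} [Field F] [Infinite F] {δ : ℝ} {n s : ℕ} (hδ : 0 < δ)
    (h : RandomCircuits F δ n s) :
    ∃ C : Circuit F (Vars n), (∀ i j, ∃ k, C.poly k = entry F n i j) ∧
      IsPlanar (gateGraph C) ∧ C.size ≤ s := by
  classical
  obtain ⟨R, hR, hR', C, out, h1, h2⟩ := h
  by_contra hcon
  have h3 : ∀ i, ∃ o : Fin n × Fin n, (C i).poly (out i o.1 o.2).1 ≠ entry F n o.1 o.2 := by
    intro i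
    by_contra hc
    push Not at hc
    exact hcon ⟨C i, fun p q => ⟨_, hc (p, q)⟩, (h1 i).1, (h1 i).2⟩
  choose o ho using h3
  have h4 : ∏ i, ((C i).poly (out i (o i).1 (o i).2).1 - entry F n (o i).1 (o i).2) ≠ 0 :=
    Finset.prod_ne_zero_iff.2 fun i _ => sub_ne_zero.2 (ho i)
  obtain ⟨y, hy⟩ : ∃ y, MvPolynomial.eval y
      (∏ i, ((C i).poly (out i (o i).1 (o i).2).1 - entry F n (o i).1 (o i).2)) ≠ 0 := by
    by_contra hc
    push Not at hc
    exact h4 (MvPolynomial.funext fun y => by rw [hc y, map_zero])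
  rw [map_prod, Finset.prod_ne_zero_iff] at hy
  have h5 := h2 (Matrix.of fun p q => y (Sum.inl (p, q))) (Matrix.of fun p q => y (Sum.inr (p, q)))
  have h6 : IsEmpty {i // Multiplies (C i) (out i) (Matrix.of fun p q => y (Sum.inl (p, q)))
      (Matrix.of fun p q => y (Sum.inr (p, q)))} := by
    refine ⟨fun i => ?_⟩
    obtain ⟨i, hi⟩ := i
    apply hy i (Finset.mem_univ _)
    have h7 := hi (o i).1 (o i).2
    have e1 : Sum.elim (fun u : Fin n × Fin n => (Matrix.of fun p q => y (Sum.inl (p, q))) u.1 u.2)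
        (fun u : Fin n × Fin n => (Matrix.of fun p q => y (Sum.inr (p, q))) u.1 u.2) = y := by
      funext u
      rcases u with u | u <;> rfl
    rw [e1] at h7
    rw [map_sub, h7, sub_eq_zero]
    simp [entry, Matrix.mul_apply]
  rw [@Nat.card_of_isEmpty _ h6] at h5
  have h8 : 0 < δ * (Nat.card R : ℝ) := mul_pos hδ (by exact_mod_cast Nat.card_pos)
  push_cast at h5
  linarith

theorem circuits_lower (δ ε : ℝ) (hδ : 0 < δ) (hε : 0 < ε) :
    ∀ᶠ n : ℕ in Filter.atTop, ∀ (F : Type) [Field F] (s : ℕ), RandomCircuits F δ n s →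
      (n : ℝ) ^ (8 / 3 - ε) ≤ s := by
  obtain ⟨ε', h0, h1', h2'⟩ : ∃ ε' : ℝ, 0 < ε' ∧ ε' < 1 ∧ ε' < ε :=
    ⟨min (1 / 2) (ε / 2), by positivity, lt_of_le_of_lt (min_le_left _ _) (by norm_num),
      lt_of_le_of_lt (min_le_right _ _) (by linarith)⟩
  obtain ⟨c, hc, hp⟩ := Pool.Agent.U103.TG.PEXP.t_PEXP (2 ^ 59) ε' h0 h1'
  have hev : ∀ᶠ n : ℕ in Filter.atTop, (1 / c : ℝ) ≤ (n : ℝ) ^ (ε - ε') :=
    ((tendsto_rpow_atTop (by linarith)).comp tendsto_natCast_atTop_atTop).eventually_ge_atTop _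
  filter_upwards [nets_lower 2 δ ε hδ hε, hev, Filter.eventually_ge_atTop 1]
    with n h1 h2 hn F _ s h
  rcases finite_or_infinite F with hF | hF
  · exact h1 F s (nets_of_circuits hn h)
  · obtain ⟨C, g1, g2, g3⟩ := exists_of_infinite hδ h
    have h3 := hp n C.size (Pool.Agent.U514.TG.planar_lower C g1 g2)
    have hn0 : (0 : ℝ) < n := by exact_mod_cast hn
    refine le_trans ?_ (h3.trans (by exact_mod_cast g3))
    rw [div_le_iff₀ hc] at h2
    calc (n : ℝ) ^ (8 / 3 - ε) = (n : ℝ) ^ (8 / 3 - ε) * 1 := (mul_one _).symm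
      _ ≤ (n : ℝ) ^ (8 / 3 - ε) * ((n : ℝ) ^ (ε - ε') * c) :=
          mul_le_mul_of_nonneg_left h2 (by positivity)
      _ = c * ((n : ℝ) ^ (8 / 3 - ε) * (n : ℝ) ^ (ε - ε')) := by ring
      _ = c * (n : ℝ) ^ (8 / 3 - ε') := by
          rw [← Real.rpow_add hn0]
          congr 2
          ring

theorem growth_bounds {f : ℕ → ℕ} {D : ℝ}
    (h1 : ∀ ε : ℝ, 0 < ε → ∀ᶠ n : ℕ in Filter.atTop, (n : ℝ) ^ (8 / 3 - ε) ≤ f n)
    (h2 : ∀ n, (f n : ℝ) ≤ D * (n : ℝ) ^ (2.996 : ℝ)) :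
    8 / 3 ≤ growth f ∧ growth f ≤ 2.996 := by
  have h3 : ∀ τ ∈ {τ : ℝ | ∃ D : ℝ, ∀ m : ℕ, (f m : ℝ) ≤ D * (m : ℝ) ^ τ}, 8 / 3 ≤ τ := by
    rintro τ ⟨D', hD'⟩
    refine le_of_forall_pos_lt_add fun ε hε => ?_
    by_contra hcon
    push Not at hcon
    have h4 : Filter.Tendsto (fun n : ℕ => (n : ℝ) ^ (8 / 3 - ε / 2 - τ)) Filter.atTop
        Filter.atTop := (tendsto_rpow_atTop (by linarith)).comp tendsto_natCast_atTop_atTop
    obtain ⟨n, g1, g2, g3⟩ := ((h4.eventually_gt_atTop D').and ((h1 (ε / 2) (by linarith)).and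
      (Filter.eventually_ge_atTop 1))).exists
    have hn0 : (0 : ℝ) < n := by exact_mod_cast g3
    have h5 := g2.trans (hD' n)
    rw [Real.rpow_sub hn0, lt_div_iff₀ (Real.rpow_pos_of_pos hn0 _)] at g1
    linarith
  exact ⟨le_csInf ⟨2.996, D, h2⟩ h3, csInf_le ⟨8 / 3, h3⟩ ⟨D, h2⟩⟩

/-- The deterministic circuits. -/
theorem circuits_upper : ∃ D : ℝ, ∀ (F : Type) [Field F] (n : ℕ),
    ∃ (C : Circuit F (Vars n)) (out : Fin n → Fin n → {k : Fin C.nodes // IsGate C k}),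
      IsPlanar (gateGraph C) ∧ (C.size : ℝ) ≤ D * (n : ℝ) ^ (2.996 : ℝ) ∧
      ∀ A B : Matrix (Fin n) (Fin n) F, Multiplies C out A B := by
  obtain ⟨D, hD⟩ := Pool.Agent.U514.TG.grid_circuits
  refine ⟨D, fun F _ n => ?_⟩
  obtain ⟨C, pos, g1, g2, g3, g4⟩ := hD F 2 n le_rfl
  choose k hk using g1
  refine ⟨C, fun p q => ⟨k p q, isGate_of_entry C _ p q (hk p q)⟩,
    Pool.Agent.U514.TG.planar_of_grid C pos g2 g3, g4, fun A B p q => ?_⟩
  show MvPolynomial.eval _ (C.poly (k p q)) = _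
  rw [hk]
  simp [entry, Matrix.mul_apply]

theorem random_of_det {F : Type} [Field F] {n : ℕ} {δ : ℝ} (hδ : δ ≤ 1) (C : Circuit F (Vars n))
    (out : Fin n → Fin n → {k : Fin C.nodes // IsGate C k}) (h1 : IsPlanar (gateGraph C))
    (h2 : ∀ A B : Matrix (Fin n) (Fin n) F, Multiplies C out A B) :
    RandomCircuits F δ n C.size := by
  refine ⟨Unit, inferInstance, inferInstance, fun _ => C, fun _ => out,
    fun _ => ⟨h1, le_rfl⟩, fun A B => ?_⟩
  have h3 : Nat.card {i : Unit // Multiplies C out A B} = 1 := by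
    rw [Nat.card_eq_one_iff_unique]
    exact ⟨⟨fun a b => Subtype.ext (Subsingleton.elim _ _)⟩, ⟨⟨(), h2 A B⟩⟩⟩
  rw [h3]
  simpa using hδ

theorem nets_zero {F : Type} [Field F] {κ : ℕ} {δ : ℝ} (hδ : δ ≤ 1) : RandomNets F κ δ 0 0 := by
  obtain ⟨D, hD⟩ := circuits_upper
  obtain ⟨C₀, -, h0, -⟩ := hD F 0
  let C : Net (Bool × Fin 0 × Fin 0) (Fin 0 × Fin 0) F :=
    { size := 0
      arity := fun g => g.elim0
      src := fun g => g.elim0
      op := fun g => g.elim0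
      out := fun o => o.1.elim0
      acyclic := fun g => g.elim0 }
  refine ⟨Unit, inferInstance, inferInstance, fun _ => C, fun _ => ⟨fun g => g.elim0,
    planar_of_hom (V := Fin 0) (fun g => g.elim0) (fun g => g.elim0) (fun g => g.elim0) h0,
    le_rfl⟩, fun A B => ?_⟩
  have h3 : Nat.card {i : Unit // C.Computes
      (fun u => if u.1 then B u.2.1 u.2.2 else A u.2.1 u.2.2) (fun o => (A * B) o.1 o.2)} = 1 := by
    rw [Nat.card_eq_one_iff_unique]
    exact ⟨⟨fun a b => Subtype.ext (Subsingleton.elim _ _)⟩,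
      ⟨⟨(), fun g => g.elim0, fun g => g.elim0, fun o => o.1.elim0⟩⟩⟩
  rw [h3]
  simpa using hδ

theorem RandomNets.mono {F : Type} [Field F] {κ κ' : ℕ} {δ : ℝ} {n s : ℕ} (hκ : κ ≤ κ')
    (h : RandomNets F κ δ n s) : RandomNets F κ' δ n s := by
  obtain ⟨R, hR, hR', C, h1, h2⟩ := h
  exact ⟨R, hR, hR', C, fun i => ⟨fun g => ((h1 i).1 g).trans hκ, (h1 i).2⟩, h2⟩

theorem exponents_circuits (F : Type) [Field F] (δ : ℝ) (hδ : 0 < δ) (hδ1 : δ ≤ 1) :
    8 / 3 ≤ growth (fun n => sInf {s | RandomCircuits F δ n s}) ∧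
      growth (fun n => sInf {s | RandomCircuits F δ n s}) ≤ 2.996 := by
  obtain ⟨D, hD⟩ := circuits_upper
  have hu : ∀ n, ∃ s : ℕ, RandomCircuits F δ n s ∧ (s : ℝ) ≤ D * (n : ℝ) ^ (2.996 : ℝ) := by
    intro n
    obtain ⟨C, out, h1, h2, h3⟩ := hD F n
    exact ⟨_, random_of_det hδ1 C out h1 h3, h2⟩
  refine growth_bounds (D := D) (fun ε hε => ?_) (fun n => ?_)
  · filter_upwards [circuits_lower δ ε hδ hε] with n h1
    obtain ⟨s, hs, -⟩ := hu n
    exact h1 F _ (Nat.sInf_mem (s := {s | RandomCircuits F δ n s}) ⟨s, hs⟩)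
  · obtain ⟨s, hs, hs'⟩ := hu n
    exact le_trans (by exact_mod_cast Nat.sInf_le hs) hs'

theorem exponents_nets (F : Type) [Field F] [Finite F] (κ : ℕ) (δ : ℝ) (hκ : 2 ≤ κ) (hδ : 0 < δ)
    (hδ1 : δ ≤ 1) :
    8 / 3 ≤ growth (fun n => sInf {s | RandomNets F κ δ n s}) ∧
      growth (fun n => sInf {s | RandomNets F κ δ n s}) ≤ 2.996 := by
  obtain ⟨D, hD⟩ := circuits_upper
  have hu : ∀ n, ∃ s : ℕ, RandomNets F κ δ n s ∧ (s : ℝ) ≤ D * (n : ℝ) ^ (2.996 : ℝ) := by
    intro n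
    rcases Nat.eq_zero_or_pos n with rfl | hn
    · exact ⟨0, nets_zero hδ1, by norm_num⟩
    · obtain ⟨C, out, h1, h2, h3⟩ := hD F n
      exact ⟨_, (nets_of_circuits hn (random_of_det hδ1 C out h1 h3)).mono hκ, h2⟩
  refine growth_bounds (D := D) (fun ε hε => ?_) (fun n => ?_)
  · filter_upwards [nets_lower κ δ ε hδ hε] with n h1
    obtain ⟨s, hs, -⟩ := hu n
    exact h1 F _ (Nat.sInf_mem (s := {s | RandomNets F κ δ n s}) ⟨s, hs⟩)
  · obtain ⟨s, hs, hs'⟩ := hu n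
    exact le_trans (by exact_mod_cast Nat.sInf_le hs) hs'

end Pool.Agent.U514.TR
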