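import Mathlib
import Pool.Agent.U514.TR.Rand

/-!
# Planar circuits for the walks with two edges of a directed graph
-/

set_option autoImplicit false

open Finset

namespace Pool.Agent.U514.TR

open Pool.Agent.H522R2 Pool.Agent.H522R2.Circuit Pool.Agent.H522R3.TW Pool.Agent.Y631.Tr
open Pool.Agent.U514.TG (IsPlanar)

theorem crossings_zero {V : Type} {G : SimpleGraph V} (h : IsPlanar G) :
    ∃ D : Pool.Agent.Helper770.Crossing.Drawing G, D.crossings.Finite ∧ D.crossings.ncard ≤ 0 := by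
  obtain ⟨D, hD⟩ := h
  exact ⟨D, by rw [hD]; exact Set.finite_empty, by rw [hD, Set.ncard_empty]⟩

/-- The circuits for the square of a matrix. -/
theorem square_circuits : ∃ D : ℝ, ∀ (F : Type) [Field F] (N : ℕ),
    ∃ C : Net (Fin N × Fin N) (Fin N × Fin N) F,
      (∀ g, C.arity g ≤ 2) ∧ Pool.Agent.U514.PD.CrossingsLE C 0 ∧
      (C.size : ℝ) ≤ D * (N : ℝ) ^ (2.996 : ℝ) ∧
      ∀ A : Matrix (Fin N) (Fin N) F, C.Computes (fun p => A p.1 p.2)
        (fun o => (A * A) o.1 o.2) := by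
  obtain ⟨D, hD⟩ := circuits_upper
  refine ⟨D, fun F _ N => ?_⟩
  rcases Nat.eq_zero_or_pos N with rfl | hN
  · obtain ⟨C₀, -, h0, -⟩ := hD F 0
    let C : Net (Fin 0 × Fin 0) (Fin 0 × Fin 0) F :=
      { size := 0
        arity := fun g => g.elim0
        src := fun g => g.elim0
        op := fun g => g.elim0
        out := fun o => o.1.elim0
        acyclic := fun g => g.elim0 }
    refine ⟨C, fun g => g.elim0, crossings_zero (planar_of_hom (V := Fin 0) (fun g => g.elim0)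
      (fun g => g.elim0) (fun g => g.elim0) h0), ?_, fun A => ⟨fun g => g.elim0, fun g => g.elim0,
      fun o => o.1.elim0⟩⟩
    show ((0 : ℕ) : ℝ) ≤ _
    norm_num
  · obtain ⟨C, out, h1, h2, h3⟩ := hD F N
    refine ⟨conv C (Sum.elim id id) (⟨0, hN⟩, ⟨0, hN⟩) (iso C)
      (fun o : Fin N × Fin N => out o.1 o.2), fun g => le_rfl, crossings_zero (conv_planar _ h1),
      h2, fun A => ?_⟩
    have h4 := conv_computes (C := C) (τ := Sum.elim id id) (x₀ := ((⟨0, hN⟩, ⟨0, hN⟩) :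
      Fin N × Fin N)) (e := iso C) (fun o : Fin N × Fin N => out o.1 o.2)
      (fun p => A p.1 p.2)
    have e1 : ((fun p : Fin N × Fin N => A p.1 p.2) ∘ (Sum.elim id id : Vars N → Fin N × Fin N)) =
        Sum.elim (fun u => A u.1 u.2) (fun u => A u.1 u.2) := by
      funext u
      rcases u with u | u <;> rfl
    have e2 : (fun w : Fin N × Fin N => MvPolynomial.eval
        ((fun p : Fin N × Fin N => A p.1 p.2) ∘ (Sum.elim id id : Vars N → Fin N × Fin N))
          (C.poly (out w.1 w.2).1)) = fun o => (A * A) o.1 o.2 := by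
      funext w
      rw [e1]
      exact h3 A A w.1 w.2
    rw [e2] at h4
    exact h4

/-- The pairs which are joined by two edges. -/
theorem two_step : ∃ D : ℝ, ∀ N : ℕ, ∃ p : ℕ, p ≤ 2 * N + 2 ∧
    ∃ C : Net (Fin N × Fin N) (Fin N × Fin N) (Fin p),
      (∀ g, C.arity g ≤ 2) ∧ Pool.Agent.U514.PD.CrossingsLE C 0 ∧
      (C.size : ℝ) ≤ D * (N : ℝ) ^ (2.996 : ℝ) ∧
      ∃ (inp : ℕ∞ → Fin p) (dec : Fin p → Prop),
        ∀ w : Fin N × Fin N → ℕ∞, (∀ q, w q = 1 ∨ w q = ⊤) →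
          ∃ y, C.Computes (fun q => inp (w q)) y ∧
            ∀ o, dec (y o) ↔ ∃ z, w (o.1, z) = 1 ∧ w (z, o.2) = 1 := by
  classical
  obtain ⟨D, hD⟩ := square_circuits
  refine ⟨D, fun N => ?_⟩
  obtain ⟨p, hp, hNp, hpN⟩ : ∃ p : ℕ, p.Prime ∧ N < p ∧ p ≤ 2 * N + 2 := by
    obtain ⟨p, h1, h2, h3⟩ := Nat.exists_prime_lt_and_le_two_mul (N + 1) (by omega)
    exact ⟨p, h1, by omega, by omega⟩
  have : Fact p.Prime := ⟨hp⟩
  obtain ⟨C, h1, h2, h3, h4⟩ := hD (ZMod p) N
  obtain ⟨q, rfl⟩ : ∃ q, p = q + 1 := ⟨p - 1, by have := hp.pos; omega⟩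
  refine ⟨q + 1, hpN, C, h1, h2, h3, fun t => if t = 1 then (1 : ZMod (q + 1)) else 0,
    fun a => (a : ZMod (q + 1)) ≠ 0, fun w hw => ?_⟩
  refine ⟨_, h4 (Matrix.of fun u v => if w (u, v) = 1 then 1 else 0), fun o => ?_⟩
  have e1 : ((Matrix.of fun u v => if w (u, v) = 1 then (1 : ZMod (q + 1)) else 0) *
      (Matrix.of fun u v => if w (u, v) = 1 then (1 : ZMod (q + 1)) else 0) :
        Matrix (Fin N) (Fin N) (ZMod (q + 1))) o.1 o.2 =
      ((univ.filter fun z => w (o.1, z) = 1 ∧ w (z, o.2) = 1).card : ZMod (q + 1)) := by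
    rw [Matrix.mul_apply, Finset.card_filter, Nat.cast_sum]
    refine Finset.sum_congr rfl fun z _ => ?_
    simp only [Matrix.of_apply]
    by_cases a : w (o.1, z) = 1 <;> by_cases b : w (z, o.2) = 1 <;> simp [a, b]
  show (((Matrix.of fun u v => if w (u, v) = 1 then (1 : ZMod (q + 1)) else 0) *
      (Matrix.of fun u v => if w (u, v) = 1 then (1 : ZMod (q + 1)) else 0) :
        Matrix (Fin N) (Fin N) (ZMod (q + 1))) o.1 o.2 ≠ 0) ↔ _
  rw [e1]
  have hlt : (univ.filter fun z => w (o.1, z) = 1 ∧ w (z, o.2) = 1).card < q + 1 := by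
    refine lt_of_le_of_lt ?_ hNp
    exact (Finset.card_le_univ _).trans (by rw [Fintype.card_fin])
  rw [Ne, ZMod.natCast_eq_zero_iff]
  constructor
  · intro h
    by_contra hcon
    apply h
    rw [Finset.filter_false_of_mem (fun z _ hz => hcon ⟨z, hz⟩), Finset.card_empty]
    exact dvd_zero _
  · rintro ⟨z, hz⟩ h
    have h5 := Nat.eq_zero_of_dvd_of_lt h hlt
    rw [Finset.card_eq_zero] at h5
    exact (Finset.filter_eq_empty_iff.1 h5 (Finset.mem_univ z)) hz

end Pool.Agent.U514.TR
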