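import Mathlib
import Pool.Agent.U514.TR.TwoStep

/-!
# Planar circuits for the products of a fixed matrix with vectors
-/

set_option autoImplicit false

open Finset

namespace Pool.Agent.U514.TR.Fx

open Pool.Agent.H522R2 Pool.Agent.H522R2.Circuit Pool.Agent.H522R3.TW Pool.Agent.Y631.Tr
open Pool.Agent.U514.TG (IsPlanar)
open Pool.Agent.U514.TR

section conv

variable {F V ι : Type} [Field F] (C : Circuit F V) (ρ : V → ι ⊕ F) (x₀ : ι) {s : ℕ}
  (e : Fin s ≃o {k : Fin C.nodes // IsGate C k})

open Classical in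
/-- the source of a wire; `ρ` assigns an input or a constant to each variable -/
noncomputable def srcOf (u : Fin C.nodes) : ι ⊕ Fin s :=
  if h : IsGate C u then Sum.inr (e.symm ⟨u, h⟩) else
    match C.gate u with
    | .var v => Sum.inl (Sum.elim id (fun _ => x₀) (ρ v))
    | _ => Sum.inl x₀

/-- the value of an operand -/
def valOf (u : Fin C.nodes) (t : F) : F :=
  match C.gate u with
  | .const c => c
  | .var v => Sum.elim (fun _ => t) id (ρ v)
  | _ => t

variable {C ρ x₀ e}

theorem valOf_gate {u : Fin C.nodes} (h : IsGate C u) (t : F) : valOf C ρ u t = t := by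
  obtain ⟨i, j, h1 | h1⟩ := h
  · unfold valOf
    rw [h1]
  · unfold valOf
    rw [h1]

theorem val_src (x : ι → F) (u : Fin C.nodes) :
    valOf C ρ u (Sum.elim x
      (fun g => MvPolynomial.eval (fun v => Sum.elim x id (ρ v)) (C.poly (e g).1))
      (srcOf C ρ x₀ e u)) = MvPolynomial.eval (fun v => Sum.elim x id (ρ v)) (C.poly u) := by
  by_cases h : IsGate C u
  · rw [srcOf, dif_pos h, Sum.elim_inr, OrderIso.apply_symm_apply]
    exact valOf_gate h _
  · rw [srcOf, dif_neg h]
    cases h1 : C.gate u with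
    | var v =>
      unfold valOf
      rw [h1, poly, h1]
      simp only [MvPolynomial.eval_X]
      rcases ρ v with i | c
      · rfl
      · rfl
    | const c =>
      unfold valOf
      rw [h1, poly, h1]
      simp
    | add i j => exact absurd ⟨i, j, Or.inl h1⟩ h
    | mul i j => exact absurd ⟨i, j, Or.inr h1⟩ h

theorem srcOf_inr {u : Fin C.nodes} {h : Fin s} (hu : srcOf C ρ x₀ e u = Sum.inr h) :
    (e h).1 = u := by
  by_cases hg : IsGate C u
  · rw [srcOf, dif_pos hg] at hu
    have := Sum.inr_injective hu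
    rw [← this, OrderIso.apply_symm_apply]
  · rw [srcOf, dif_neg hg] at hu
    cases h1 : C.gate u with
    | var v => rw [h1] at hu; cases hu
    | const c => rw [h1] at hu; cases hu
    | add i j => rw [h1] at hu; cases hu
    | mul i j => rw [h1] at hu; cases hu

variable (C ρ x₀ e)

/-- the converted circuit -/
noncomputable def conv {ω : Type} (o : ω → {k : Fin C.nodes // IsGate C k}) : Net ι ω F where
  size := s
  arity := fun _ => 2
  src := fun g a => srcOf C ρ x₀ e (if a = 0 then opA C (e g).1 else opB C (e g).1)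
  op := fun g v => opF C (e g).1 (valOf C ρ (opA C (e g).1) (v 0))
    (valOf C ρ (opB C (e g).1) (v 1))
  out := fun w => e.symm (o w)
  acyclic := by
    intro g a h hh
    have h1 := srcOf_inr hh
    have h2 : (e h).1 < (e g).1 := by
      rw [h1]
      split_ifs
      · exact lt_of_feeds (feeds_opA _ (e g).2)
      · exact lt_of_feeds (feeds_opB _ (e g).2)
    exact (e.lt_iff_lt).1 h2

variable {C ρ x₀ e}

theorem conv_computes {ω : Type} (o : ω → {k : Fin C.nodes // IsGate C k}) (x : ι → F) :
    (conv C ρ x₀ e o).Computes x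
      (fun w => MvPolynomial.eval (fun v => Sum.elim x id (ρ v)) (C.poly (o w).1)) := by
  refine ⟨fun g => MvPolynomial.eval (fun v => Sum.elim x id (ρ v)) (C.poly (e g).1),
    fun g => ?_, fun w => ?_⟩
  · show MvPolynomial.eval (fun v => Sum.elim x id (ρ v)) (C.poly (e g).1) =
      opF C (e g).1
        (valOf C ρ (opA C (e g).1) (Sum.elim x
          (fun g => MvPolynomial.eval (fun v => Sum.elim x id (ρ v)) (C.poly (e g).1))
          (srcOf C ρ x₀ e (if (0 : Fin 2) = 0 then opA C (e g).1 else opB C (e g).1))))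
        (valOf C ρ (opB C (e g).1) (Sum.elim x
          (fun g => MvPolynomial.eval (fun v => Sum.elim x id (ρ v)) (C.poly (e g).1))
          (srcOf C ρ x₀ e (if (1 : Fin 2) = 0 then opA C (e g).1 else opB C (e g).1))))
    rw [if_pos rfl, if_neg (by decide), val_src, val_src]
    exact opF_eval _ _ (e g).2
  · show MvPolynomial.eval (fun v => Sum.elim x id (ρ v)) (C.poly (e (e.symm (o w))).1) = _
    rw [OrderIso.apply_symm_apply]

theorem conv_planar {ω : Type} (o : ω → {k : Fin C.nodes // IsGate C k})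
    (h : IsPlanar (Pool.Agent.U514.MM.gateGraph C)) :
    IsPlanar (Pool.Agent.U514.PD.gateGraph (conv C ρ x₀ e o)) := by
  have hj : ∀ u v : Fin s, (conv C ρ x₀ e o).Joined u v → Feeds C (e u).1 (e v).1 := by
    rintro u v ⟨a, ha⟩
    have h1 := srcOf_inr (ρ := ρ) (x₀ := x₀) (e := e) ha
    rw [h1]
    split_ifs
    · exact feeds_opA _ (e v).2
    · exact feeds_opB _ (e v).2
  refine planar_of_hom (V := Fin s) (fun g => e g) e.injective (fun u v huv => ?_) h
  rw [Pool.Agent.U514.PD.gateGraph, SimpleGraph.fromRel_adj] at huv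
  rw [Pool.Agent.U514.MM.gateGraph, SimpleGraph.fromRel_adj]
  exact ⟨fun h0 => huv.1 (e.injective h0), huv.2.imp (hj u v) (hj v u)⟩

end conv

/-- The circuits for the products of a fixed matrix with `n` vectors. -/
theorem fixed_circuits : ∃ D : ℝ, ∀ (F : Type) [Field F] (n : ℕ) (M : Fin n → Fin n → F),
    ∃ C : Net (Fin n × Fin n) (Fin n × Fin n) F,
      (∀ g, C.arity g ≤ 2) ∧ Pool.Agent.U514.PD.CrossingsLE C 0 ∧
      (C.size : ℝ) ≤ D * (n : ℝ) ^ (2.996 : ℝ) ∧
      ∀ v : Fin n × Fin n → F, C.Computes v (fun o => ∑ k, M o.2 k * v (o.1, k)) := by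
  obtain ⟨D, hD⟩ := circuits_upper
  refine ⟨D, fun F _ n M => ?_⟩
  rcases Nat.eq_zero_or_pos n with rfl | hn
  · obtain ⟨C₀, -, h0, -⟩ := hD F 0
    let C : Net (Fin 0 × Fin 0) (Fin 0 × Fin 0) F :=
      { size := 0
        arity := fun g => g.elim0
        src := fun g => g.elim0
        op := fun g => g.elim0
        out := fun o => o.1.elim0
        acyclic := fun g => g.elim0 }
    refine ⟨C, fun g => g.elim0, crossings_zero (planar_of_hom (V := Fin 0) (fun g => g.elim0)
      (fun g => g.elim0) (fun g => g.elim0) h0), ?_, fun A => ⟨fun g => g.elim0, fun g => g.elim0,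
      fun o => o.1.elim0⟩⟩
    show ((0 : ℕ) : ℝ) ≤ _
    norm_num
  · obtain ⟨C, out, h1, h2, h3⟩ := hD F n
    obtain ⟨ρ, hρ⟩ : ∃ ρ : Vars n → (Fin n × Fin n) ⊕ F, ρ =
      Sum.elim (fun p => Sum.inr (M p.1 p.2)) (fun p => Sum.inl (p.2, p.1)) := ⟨_, rfl⟩
    refine ⟨conv C ρ (⟨0, hn⟩, ⟨0, hn⟩) (iso C)
      (fun o : Fin n × Fin n => out o.2 o.1), fun g => le_rfl, crossings_zero (conv_planar _ h1),
      h2, fun v => ?_⟩
    have h4 := conv_computes (C := C) (ρ := ρ) (x₀ := ((⟨0, hn⟩, ⟨0, hn⟩) :
      Fin n × Fin n)) (e := iso C) (fun o : Fin n × Fin n => out o.2 o.1) v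
    have e1 : (fun u => Sum.elim v id (ρ u)) =
        Sum.elim (fun u : Fin n × Fin n => (Matrix.of M) u.1 u.2)
          (fun u : Fin n × Fin n => (Matrix.of fun k j => v (j, k)) u.1 u.2) := by
      funext u
      rw [hρ]
      rcases u with u | u <;> rfl
    have e2 : (fun w : Fin n × Fin n => MvPolynomial.eval (fun u => Sum.elim v id (ρ u))
          (C.poly (out w.2 w.1).1)) = fun o => ∑ k, M o.2 k * v (o.1, k) := by
      funext w
      rw [e1]
      refine (h3 (Matrix.of M) (Matrix.of fun k j => v (j, k)) w.2 w.1).trans ?_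
      rw [Matrix.mul_apply]
      rfl
    rw [e2] at h4
    exact h4

end Pool.Agent.U514.TR.Fx
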